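import Pool.Agent.helper84.NR.SpecW

/-!
Row WLKW of project NRW (copy of row WLK of project NR, by helper31) (MP_133bfc_co).
-/

set_option autoImplicit false

namespace Pool.Agent.helper84.NR

open scoped Classical
open Finset

theorem WLKW_onv {V F : Type} (M : Cyc V F) {f : F} {e : Sym2 V} (h : OnE M f e) {v : V} (hv : v ∈ e) : OnV M f v := by
  obtain ⟨k, rfl⟩ := h
  rw [Sym2.mem_iff] at hv
  rcases hv with rfl | rfl
  · exact ⟨k, rfl⟩
  · exact ⟨k + 1, rfl⟩

/-- The end of the walk: a shared index. -/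
theorem WLKW_end {V F : Type} (M : PMap V F) (x y : V) (J : Finset F) (hT : TopW M x y J)
    (q : Quot (lk M (inU M x y J))) (hqx : ∀ A, OnV M.toCyc A x → Quot.mk _ A ≠ q)
    (hqy : ∀ B, OnV M.toCyc B y → Quot.mk _ B ≠ q) (B : F) (hB : B ∈ J) (k : ℕ) (hk : inb M x y B k) (hs : sh M x y B k)
    (hg : ∃ g, OnE M.toCyc g s(ww M y B k, ww M y B (k + 1)) ∧ Quot.mk _ g = q) : gp M x y B k := by
  refine ⟨hs, hk.2, ?_⟩
  rintro ⟨A, hA, hAe⟩
  obtain ⟨g, hge, hgq⟩ := hg
  have hBe : OnE M.toCyc B s(ww M y B k, ww M y B (k + 1)) := ⟨st M y B + k, rfl⟩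
  have hBq := hqy B (hT.jy B hB)
  have hAq := hqx A hA
  obtain ⟨g', _, _, h3⟩ := M.two _ B hBe
  rcases h3 g hge with h | h
  · rw [h] at hgq
    exact hBq hgq
  · rcases h3 A hAe with h' | h'
    · rw [h'] at hA
      exact hT.ne B ⟨hA, hT.jy B hB⟩
    · rw [← h] at h'
      rw [h'] at hAq
      exact hAq hgq

/-- The step of the walk. -/
theorem WLKW_step (hIDX : IDX_stmt) (hPAR : PAR_stmt) (hWW0 : WW0_stmt) {V F : Type} [Fintype V] [Fintype F] (M : PMap V F)
    (x y : V) (J : Finset F) (hT : TopW M x y J) (q : Quot (lk M (inU M x y J)))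
    (hqy : ∀ B, OnV M.toCyc B y → Quot.mk _ B ≠ q) (B : F) (hB : B ∈ J) (k : ℕ) (hk : inb M x y B (k + 1))
    (hs : ¬ sh M x y B (k + 1))
    (hg : ∃ g, OnE M.toCyc g s(ww M y B (k + 1), ww M y B (k + 1 + 1)) ∧ Quot.mk _ g = q) :
    inb M x y B k ∧ ∃ g, OnE M.toCyc g s(ww M y B k, ww M y B (k + 1)) ∧ Quot.mk _ g = q := by
  obtain ⟨I1, -, -, I4, -⟩ := hIDX V F M.toCyc B (st M y B)
  have hw0 := (hWW0 V F M y B (hT.jy B hB)).1
  obtain ⟨⟨a, ha1, ha2⟩, b, hb1, hb2⟩ := hk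
  have hak : a ≤ k := by
    rcases Nat.lt_or_ge a (k + 1) with h | h
    · omega
    · exfalso
      have : a = k + 1 := by omega
      rw [this] at ha2
      exact hs ha2
  have ha3 : 1 ≤ a := ha2.1
  have hb3 : b < M.len B := hb2.2.1
  refine ⟨⟨⟨a, hak, ha2⟩, b, by omega, hb2⟩, ?_⟩
  obtain ⟨g, hge, hgq⟩ := hg
  have hBe : OnE M.toCyc B s(ww M y B (k + 1), ww M y B (k + 1 + 1)) := ⟨st M y B + (k + 1), rfl⟩
  have hBq := hqy B (hT.jy B hB)
  have hpar := hPAR V F M {f | Quot.mk (lk M (inU M x y J)) f = q} (ww M y B (k + 1))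
  have hmem : s(ww M y B (k + 1), ww M y B (k + 1 + 1)) ∈ univ.filter (fun e : Sym2 V => ww M y B (k + 1) ∈ e ∧
      (∃ f, OnE M.toCyc f e ∧ f ∈ {f | Quot.mk (lk M (inU M x y J)) f = q}) ∧
      ∃ g, OnE M.toCyc g e ∧ g ∉ {f | Quot.mk (lk M (inU M x y J)) f = q}) := by
    rw [Finset.mem_filter]
    exact ⟨Finset.mem_univ _, Sym2.mem_mk_left _ _, ⟨g, hge, hgq⟩, B, hBe, hBq⟩
  have hcard : 1 < (univ.filter (fun e : Sym2 V => ww M y B (k + 1) ∈ e ∧
      (∃ f, OnE M.toCyc f e ∧ f ∈ {f | Quot.mk (lk M (inU M x y J)) f = q}) ∧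
      ∃ g, OnE M.toCyc g e ∧ g ∉ {f | Quot.mk (lk M (inU M x y J)) f = q})).card := by
    have h1 := Finset.card_pos.mpr ⟨_, hmem⟩
    obtain ⟨t, ht⟩ := hpar
    rw [ht] at h1 ⊢
    omega
  obtain ⟨e', he', hne⟩ := Finset.exists_mem_ne hcard s(ww M y B (k + 1), ww M y B (k + 1 + 1))
  rw [Finset.mem_filter] at he'
  obtain ⟨-, hve, ⟨f, hfe, hfq⟩, g', hge', hgq'⟩ := he'
  have hfq' : Quot.mk (lk M (inU M x y J)) f = q := hfq
  have hU : inU M x y J e' := by
    by_contra hU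
    apply hgq'
    have : Quot.mk (lk M (inU M x y J)) f = Quot.mk (lk M (inU M x y J)) g' := Quot.sound ⟨e', hU, hfe, hge'⟩
    exact this.symm.trans hfq'
  rcases hU with ⟨_, A, hA, hAe⟩ | ⟨B', hB', k', hk', hek'⟩
  · exfalso
    exact hs ⟨by omega, by omega, A, hA, WLKW_onv _ hAe hve⟩
  · have hvy : ww M y B (k + 1) ≠ y := by
      intro h
      have := I1 (k + 1) 0 (by omega) (by omega) (h.trans hw0.symm)
      omega
    have hBB : B' = B := by
      by_contra hBB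
      have hB'v : OnV M.toCyc B' (ww M y B (k + 1)) := by
        rw [hek'] at hve
        exact WLKW_onv M.toCyc (f := B') ⟨st M y B' + k', rfl⟩ hve
      have h1 := (M.poly B B' (fun h => hBB h.symm) y (ww M y B (k + 1)) (fun h => hvy h.symm) (hT.jy B hB)
        ⟨st M y B + (k + 1), rfl⟩ (hT.jy B' hB') hB'v).1
      have h2 : OnE M.toCyc B s(M.bd B (st M y B + 0), M.bd B (st M y B + (k + 1))) := by
        have h3 : M.bd B (st M y B + 0) = y := hw0
        rw [h3]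
        exact h1
      rcases I4 0 (k + 1) (by omega) (by omega) h2 with h | h
      · omega
      · omega
    subst hBB
    obtain ⟨⟨a', ha1', ha2'⟩, b', hb1', hb2'⟩ := hk'
    have hb3' : b' < M.len B' := hb2'.2.1
    rw [hek', Sym2.mem_iff] at hve
    rcases hve with h | h
    · exfalso
      have := I1 (k + 1) k' (by omega) (by omega) h
      rw [← this] at hek'
      exact hne hek'
    · have := I1 (k + 1) (k' + 1) (by omega) (by omega) h
      have hkk : k' = k := by omega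
      rw [hkk] at hek'
      rw [hek'] at hfe
      exact ⟨f, hfe, hfq'⟩

theorem WLKW : WLKW_stmt := by
  intro V F _ _ M x y J hT q hP B hB k
  obtain ⟨hqx, hqy⟩ := hP
  induction k with
  | zero =>
    intro hk
    obtain ⟨⟨a, ha1, ha2⟩, -⟩ := hk
    have := ha2.1
    omega
  | succ k ih =>
    intro hk hg
    by_cases hs : sh M x y B (k + 1)
    · exact ⟨k + 1, le_rfl, fun i h1 h2 => absurd h2 (by omega), WLKW_end M x y J hT q hqx hqy B hB (k + 1) hk hs hg, hg⟩
    · obtain ⟨hk', hg'⟩ := WLKW_step h_IDX h_PAR h_WW0 M x y J hT q hqy B hB k hk hs hg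
      obtain ⟨k1, h1, h2, h3, h4⟩ := ih hk' hg'
      refine ⟨k1, by omega, ?_, h3, h4⟩
      intro i hi1 hi2
      rcases Nat.lt_or_ge i (k + 1) with h | h
      · exact h2 i hi1 (by omega)
      · have : i = k + 1 := by omega
        rw [this]
        exact hs

end Pool.Agent.helper84.NR
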